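import Pool.Agent.H756.SB.Stm
import Pool.Agent.R364.OP.RS

/-!
# SB-RS: Riemann sums over admissible signed placements (helper741, for project SB of helper756)

Adapted from `Pool.Agent.R364.OP.RS`.
-/

set_option autoImplicit false

namespace Pool.Agent.U741.SB

open MeasureTheory Set Filter Topology
open Pool.Agent.R972.OP (lp)
open Pool.Agent.R364.OP
open Pool.Agent.H756.SB

variable {n : ℕ}

open Classical in
/-- step function -/
noncomputable def hs (S : Fin n × Bool → Fin n × Bool → Prop) (G : (Fin n → ℝ) → ℝ) (N : ℕ)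
    (x : Fin n → ℝ) : ℝ :=
  if (∀ a, 0 ≤ x a) ∧ fl (2 * N) x ∈ cfs N S then G (lp (2 * N) (fl (2 * N) x)) else 0

theorem hs_eq (S : Fin n × Bool → Fin n × Bool → Prop) (G : (Fin n → ℝ) → ℝ) {N : ℕ} (hN : 0 < N)
    (x : Fin n → ℝ) :
    hs S G N x = ∑ g ∈ cfs N S, (cell (2 * N) g).indicator (fun _ => G (lp (2 * N) g)) x := by
  classical
  have hN2 : 0 < 2 * N := by omega
  unfold hs
  by_cases h0 : ∀ a, 0 ≤ x a
  · have : ∀ g ∈ cfs N S, (cell (2 * N) g).indicator (fun _ => G (lp (2 * N) g)) x =
        if fl (2 * N) x = g then G (lp (2 * N) g) else 0 := by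
      intro g _
      by_cases h : fl (2 * N) x = g
      · rw [if_pos h, indicator_of_mem ((mem_cell hN2 g x).2 ⟨h0, h⟩)]
      · rw [if_neg h, indicator_of_notMem]
        intro hx
        exact h ((mem_cell hN2 g x).1 hx).2
    rw [Finset.sum_congr rfl this, Finset.sum_ite_eq]
    by_cases h1 : fl (2 * N) x ∈ cfs N S
    · rw [if_pos ⟨h0, h1⟩, if_pos h1]
    · rw [if_neg (fun h => h1 h.2), if_neg h1]
  · rw [if_neg (fun h => h0 h.1)]
    symm
    apply Finset.sum_eq_zero
    intro g _
    rw [indicator_of_notMem]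
    intro hx
    exact h0 ((mem_cell hN2 g x).1 hx).1

theorem integral_hs (S : Fin n × Bool → Fin n × Bool → Prop) (G : (Fin n → ℝ) → ℝ) {N : ℕ}
    (hN : 0 < N) :
    ∫ x, hs S G N x = (∑ g ∈ cfs N S, G (lp (2 * N) g)) / ((2 * N : ℕ) : ℝ) ^ n := by
  have hN2 : 0 < 2 * N := by omega
  have : ∀ x, hs S G N x =
      ∑ g ∈ cfs N S, (cell (2 * N) g).indicator (fun _ => G (lp (2 * N) g)) x := hs_eq S G hN
  simp only [this]
  have hfin : ∀ g : Fin n → ℕ, volume (cell (2 * N) g) ≠ ⊤ := by
    intro g
    unfold cell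
    rw [Real.volume_pi_Ico]
    exact ENNReal.prod_ne_top fun a _ => ENNReal.ofReal_ne_top
  rw [integral_finsetSum]
  · rw [Finset.sum_div]
    apply Finset.sum_congr rfl
    intro g _
    rw [integral_indicator_const _ (measurableSet_cell (2 * N) g), volume_cell hN2, smul_eq_mul]
    ring
  · intro g _
    rw [integrable_indicator_iff (measurableSet_cell (2 * N) g)]
    exact integrableOn_const (hfin g)

theorem null_add {a b : Fin n} (hab : a ≠ b) :
    (volume : Measure (Fin n → ℝ)) {x | x a + x b = 1} = 0 := by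
  have h := Measure.addHaar_affineSubspace (volume : Measure (Fin n → ℝ))
    (AffineSubspace.mk' (Pi.single a (1 : ℝ) : Fin n → ℝ)
      (LinearMap.ker (LinearMap.proj (R := ℝ) (φ := fun _ : Fin n => ℝ) a + LinearMap.proj b))) (by
      intro h
      have h2 : (0 : Fin n → ℝ) ∈ AffineSubspace.mk' (Pi.single a (1 : ℝ) : Fin n → ℝ)
        (LinearMap.ker (LinearMap.proj (R := ℝ) (φ := fun _ : Fin n => ℝ) a +
          LinearMap.proj b)) := by
        rw [h]; trivial
      rw [AffineSubspace.mem_mk', LinearMap.mem_ker] at h2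
      simp [hab.symm] at h2)
  refine measure_mono_null ?_ h
  intro x hx
  rw [SetLike.mem_coe, AffineSubspace.mem_mk', LinearMap.mem_ker]
  have hx' : x a + x b = 1 := hx
  simp [hab.symm]
  linarith

/-- generic points -/
theorem ae_goods : ∀ᵐ x : Fin n → ℝ, (∀ u v : Fin n × Bool, u ≠ v → xs x u ≠ xs x v) ∧
    (∀ a, x a ≠ 1) := by
  have key : ∀ u v : Fin n × Bool, ∀ᵐ x : Fin n → ℝ, u ≠ v → xs x u ≠ xs x v := by
    rintro ⟨a, s⟩ ⟨b, t⟩
    by_cases hab : a = b
    · subst hab
      have h0 := null_const (n := n) a (1 / 2)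
      rw [ae_iff]
      refine measure_mono_null ?_ h0
      intro x hx
      simp only [mem_ofPred_eq, Classical.not_imp, not_not] at hx
      obtain ⟨h1, h2⟩ := hx
      show x a = 1 / 2
      cases s <;> cases t <;> simp [xs] at h1 h2 ⊢ <;> linarith
    · have h0 := null_eq (n := n) hab
      have h0' := null_add (n := n) hab
      have h3 := measure_union_null h0 h0'
      rw [ae_iff]
      refine measure_mono_null ?_ h3
      intro x hx
      simp only [mem_ofPred_eq, Classical.not_imp, not_not] at hx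
      obtain ⟨h1, h2⟩ := hx
      show x a = x b ∨ x a + x b = 1
      cases s <;> cases t <;> simp [xs] at h2 ⊢
      · left; linarith
      · right; linarith
      · right; linarith
      · left; linarith
  have h2 : ∀ a : Fin n, ∀ᵐ x : Fin n → ℝ, x a ≠ 1 := by
    intro a
    rw [ae_iff]
    refine measure_mono_null ?_ (null_const (n := n) a 1)
    intro x hx
    simpa using hx
  have h1' : ∀ᵐ x : Fin n → ℝ, ∀ u v : Fin n × Bool, u ≠ v → xs x u ≠ xs x v := by
    rw [ae_all_iff]; intro a
    rw [ae_all_iff]; intro b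
    exact key a b
  have h2' : ∀ᵐ x : Fin n → ℝ, ∀ a, x a ≠ 1 := by
    rw [ae_all_iff]; exact h2
  filter_upwards [h1', h2'] with x ha hb
  exact ⟨ha, hb⟩

theorem mem_cfs {N : ℕ} {S : Fin n × Bool → Fin n × Bool → Prop} {g : Fin n → ℕ} :
    g ∈ cfs N S ↔ (∀ a, g a < 2 * N) ∧ (∀ a b, a ≠ b → g a ≠ g b ∧ g a + g b + 1 ≠ 2 * N) ∧
      ∀ u v, S u v → ps N g u < ps N g v := by
  classical
  unfold cfs
  rw [Finset.mem_filter, Fintype.mem_piFinset]
  simp only [Finset.mem_range]

/-- the position of a signed label of the floors -/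
theorem ps_bound {N : ℕ} {x : Fin n → ℝ} (h0 : ∀ a, 0 ≤ x a) (h1 : ∀ a, fl (2 * N) x a < 2 * N)
    (u : Fin n × Bool) : xs x u * ((2 * N : ℕ) : ℝ) - 1 ≤ ps N (fl (2 * N) x) u ∧
      (ps N (fl (2 * N) x) u : ℝ) ≤ xs x u * ((2 * N : ℕ) : ℝ) := by
  obtain ⟨a, s⟩ := u
  have h2 : (fl (2 * N) x a : ℝ) ≤ x a * ((2 * N : ℕ) : ℝ) :=
    Nat.floor_le (mul_nonneg (h0 a) (Nat.cast_nonneg _))
  have h3 : x a * ((2 * N : ℕ) : ℝ) < (fl (2 * N) x a : ℝ) + 1 := Nat.lt_floor_add_one _
  cases s
  · simp only [ps, xs, Bool.false_eq_true, if_false]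
    exact ⟨by linarith, h2⟩
  · simp only [ps, xs, if_true]
    have h4 := h1 a
    have h5 : ((2 * N - 1 - fl (2 * N) x a : ℕ) : ℝ) =
        ((2 * N : ℕ) : ℝ) - 1 - (fl (2 * N) x a : ℝ) := by
      rw [Nat.cast_sub (by omega), Nat.cast_sub (by omega), Nat.cast_one]
    rw [h5]
    constructor <;> nlinarith

theorem lp_fl_tendsto2 {x : Fin n → ℝ} (h0 : ∀ a, 0 ≤ x a) :
    Tendsto (fun N : ℕ => lp (2 * N) (fl (2 * N) x)) atTop (𝓝 x) :=
  (lp_fl_tendsto h0).comp (tendsto_id.const_mul_atTop' (by norm_num : 0 < 2))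

theorem pointwises {S : Fin n × Bool → Fin n × Bool → Prop} (hS : ∀ u, ¬ S u u)
    {G : (Fin n → ℝ) → ℝ} (hG : Continuous G) {x : Fin n → ℝ}
    (hd : ∀ u v : Fin n × Bool, u ≠ v → xs x u ≠ xs x v) (h1 : ∀ a, x a ≠ 1) :
    Tendsto (fun N : ℕ => hs S G N x) atTop (𝓝 ((OPs S).indicator G x)) := by
  classical
  -- eventually strict inequalities
  have hlt : ∀ u v : Fin n × Bool, xs x u < xs x v → ∀ᶠ N : ℕ in atTop, (∀ a, 0 ≤ x a) →
      (∀ a, fl (2 * N) x a < 2 * N) → ps N (fl (2 * N) x) u < ps N (fl (2 * N) x) v := by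
    intro u v huv
    have hdd : 0 < xs x v - xs x u := sub_pos.2 huv
    obtain ⟨m, hm⟩ := exists_nat_gt (1 / (xs x v - xs x u))
    filter_upwards [eventually_ge_atTop m] with N hN h0 hb
    have h2 : 1 / (xs x v - xs x u) < ((2 * N : ℕ) : ℝ) := by
      refine lt_of_lt_of_le hm ?_
      have : m ≤ 2 * N := by omega
      exact_mod_cast this
    have h3 : 1 < (xs x v - xs x u) * ((2 * N : ℕ) : ℝ) := by
      rw [div_lt_iff₀ hdd] at h2; linarith [mul_comm ((2 * N : ℕ) : ℝ) (xs x v - xs x u)]
    have h4 := (ps_bound h0 hb u).2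
    have h5 := (ps_bound h0 hb v).1
    have h6 : (ps N (fl (2 * N) x) u : ℝ) < (ps N (fl (2 * N) x) v : ℝ) := by nlinarith
    exact_mod_cast h6
  have hlt' : ∀ᶠ N : ℕ in atTop, ∀ u v : Fin n × Bool, xs x u < xs x v → (∀ a, 0 ≤ x a) →
      (∀ a, fl (2 * N) x a < 2 * N) → ps N (fl (2 * N) x) u < ps N (fl (2 * N) x) v := by
    rw [eventually_all]; intro u
    rw [eventually_all]; intro v
    by_cases huv : xs x u < xs x v
    · filter_upwards [hlt u v huv] with N hN _
      exact hN
    · exact Eventually.of_forall fun N h => absurd h huv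
  by_cases hx : x ∈ OPs S
  · rw [indicator_of_mem hx]
    obtain ⟨hc, hr⟩ := hx
    have h0 : ∀ a, 0 ≤ x a := fun a => (hc a).1
    have hev : ∀ᶠ N : ℕ in atTop, G (lp (2 * N) (fl (2 * N) x)) = hs S G N x := by
      filter_upwards [hlt', eventually_gt_atTop 0] with N hN hN0
      have hN' : (0 : ℝ) < ((2 * N : ℕ) : ℝ) := by
        have : 0 < 2 * N := by omega
        exact_mod_cast this
      have hb : ∀ a, fl (2 * N) x a < 2 * N := by
        intro a
        unfold fl
        rw [Nat.floor_lt (mul_nonneg (h0 a) hN'.le)]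
        have : x a < 1 := lt_of_le_of_ne (hc a).2 (h1 a)
        nlinarith
      have hne : ∀ u v : Fin n × Bool, u ≠ v →
          ps N (fl (2 * N) x) u ≠ ps N (fl (2 * N) x) v := by
        intro u v huv
        rcases lt_or_gt_of_ne (hd u v huv) with h | h
        · exact ne_of_lt (hN u v h h0 hb)
        · exact ne_of_gt (hN v u h h0 hb)
      unfold hs
      rw [if_pos]
      refine ⟨h0, mem_cfs.2 ⟨hb, ?_, ?_⟩⟩
      · intro a b hab
        have h2 := hne (a, false) (b, false) (by simpa using hab)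
        have h3 := hne (a, false) (b, true) (by simp)
        simp only [ps, Bool.false_eq_true, if_false, if_true] at h2 h3
        have h4 := hb a
        have h5 := hb b
        exact ⟨h2, by omega⟩
      · intro u v huv
        have hne' : u ≠ v := by rintro rfl; exact hS u huv
        exact hN u v (lt_of_le_of_ne (hr u v huv) (hd u v hne')) h0 hb
    refine Tendsto.congr' hev ?_
    exact (hG.tendsto x).comp (lp_fl_tendsto2 h0)
  · rw [indicator_of_notMem hx]
    have hev : ∀ᶠ N : ℕ in atTop, (0 : ℝ) = hs S G N x := by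
      filter_upwards [hlt', eventually_gt_atTop 0] with N hN hN0
      have hN' : (0 : ℝ) < ((2 * N : ℕ) : ℝ) := by
        have : 0 < 2 * N := by omega
        exact_mod_cast this
      unfold hs
      rw [if_neg]
      rintro ⟨h0, hcf⟩
      apply hx
      obtain ⟨hlt2, hinj, hr⟩ := mem_cfs.1 hcf
      refine ⟨fun a => ⟨h0 a, ?_⟩, fun u v huv => ?_⟩
      · have := hlt2 a
        unfold fl at this
        rw [Nat.floor_lt (mul_nonneg (h0 a) hN'.le)] at this
        by_contra hcon
        push Not at hcon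
        nlinarith
      · have h2 := hr u v huv
        by_contra hcon
        push Not at hcon
        have h4 := hN v u hcon h0 hlt2
        omega
    exact Tendsto.congr' hev tendsto_const_nhds

theorem measurableSet_OPs (S : Fin n × Bool → Fin n × Bool → Prop) : MeasurableSet (OPs S) := by
  have hxs : ∀ u : Fin n × Bool, Continuous fun x : Fin n → ℝ => xs x u := by
    rintro ⟨a, s⟩
    cases s
    · simpa [xs] using continuous_apply a
    · have h : Continuous fun x : Fin n → ℝ => 1 - x a := continuous_const.sub (continuous_apply a)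
      simpa [xs] using h
  have : IsClosed (OPs S) := by
    have h1 : OPs S = (⋂ i, ({x : Fin n → ℝ | 0 ≤ x i} ∩ {x : Fin n → ℝ | x i ≤ 1})) ∩
        ⋂ u, ⋂ v, ⋂ (_ : S u v), {x : Fin n → ℝ | xs x u ≤ xs x v} := by
      ext x
      simp [OPs]
    rw [h1]
    refine IsClosed.inter (isClosed_iInter fun i => IsClosed.inter ?_ ?_)
      (isClosed_iInter fun u => isClosed_iInter fun v => isClosed_iInter fun _ => ?_)
    · exact isClosed_le continuous_const (continuous_apply i)
    · exact isClosed_le (continuous_apply i) continuous_const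
    · exact isClosed_le (hxs u) (hxs v)
  exact this.measurableSet

/-- SB-RS: Riemann sums -/
theorem t_RS : S_RS := by
  classical
  intro n S hS G hG
  -- bound of G on the cube
  have hK : IsCompact (Icc (0 : Fin n → ℝ) 1) := isCompact_Icc
  obtain ⟨M, hM⟩ := hK.exists_bound_of_continuousOn hG.continuousOn
  have hM0 : 0 ≤ M := le_trans (norm_nonneg _) (hM 0 ⟨le_refl _, zero_le_one⟩)
  have hlim : Tendsto (fun N : ℕ => ∫ x, hs S G N x) atTop (𝓝 (∫ x, (OPs S).indicator G x)) := by
    refine tendsto_integral_filter_of_dominated_convergence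
      ((Icc (0 : Fin n → ℝ) 1).indicator fun _ => M) ?_ ?_ ?_ ?_
    · filter_upwards [eventually_gt_atTop 0] with N hN
      have : hs S G N = fun x =>
          ∑ g ∈ cfs N S, (cell (2 * N) g).indicator (fun _ => G (lp (2 * N) g)) x :=
        funext (hs_eq S G hN)
      rw [this]
      apply Measurable.aestronglyMeasurable
      exact Finset.measurable_sum _ fun g _ =>
        measurable_const.indicator (measurableSet_cell (2 * N) g)
    · filter_upwards [eventually_gt_atTop 0] with N hN
      have hN' : (0 : ℝ) < ((2 * N : ℕ) : ℝ) := by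
        have : 0 < 2 * N := by omega
        exact_mod_cast this
      refine Eventually.of_forall fun x => ?_
      unfold hs
      by_cases h : (∀ a, 0 ≤ x a) ∧ fl (2 * N) x ∈ cfs N S
      · rw [if_pos h]
        obtain ⟨h0, hcf⟩ := h
        have hlt := (mem_cfs.1 hcf).1
        have hxm : x ∈ Icc (0 : Fin n → ℝ) 1 := by
          refine ⟨fun a => h0 a, fun a => ?_⟩
          have := hlt a
          unfold fl at this
          rw [Nat.floor_lt (mul_nonneg (h0 a) hN'.le)] at this
          by_contra hcon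
          push Not at hcon
          have h2 : (1 : ℝ) < x a := hcon
          nlinarith
        rw [indicator_of_mem hxm]
        apply hM
        refine ⟨fun a => ?_, fun a => ?_⟩
        · show (0 : ℝ) ≤ (fl (2 * N) x a : ℝ) / ((2 * N : ℕ) : ℝ)
          positivity
        · show (fl (2 * N) x a : ℝ) / ((2 * N : ℕ) : ℝ) ≤ 1
          rw [div_le_one hN']
          exact_mod_cast (hlt a).le
      · rw [if_neg h, norm_zero]
        exact indicator_nonneg (fun _ _ => hM0) x
    · rw [integrable_indicator_iff measurableSet_Icc]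
      exact integrableOn_const hK.measure_lt_top.ne
    · filter_upwards [ae_goods (n := n)] with x hx
      exact pointwises hS hG hx.1 hx.2
  rw [integral_indicator (measurableSet_OPs S)] at hlim
  refine Tendsto.congr' ?_ hlim
  filter_upwards [eventually_gt_atTop 0] with N hN
  exact integral_hs S G hN

end Pool.Agent.U741.SB
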